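import Pool.Agent.Lib.MP_defcf3_al.BR.StageE
import Pool.Agent.Lib.MP_defcf3_al.BR.StageT
import Pool.Agent.Lib.MP_defcf3_al.BR.H38.Sadd

/-!
Module LTRANS of project BR7: translation between the Galois group over L = F(ζ) and the stabilizer of ζ.
-/

set_option autoImplicit false

namespace BR7.H62

open BR7

universe u

section Trans

variable {F L Ω : Type u} [Field F] [Field L] [Field Ω] [Algebra F L] [Algebra L Ω] [Algebra F Ω]
  [IsScalarTower F L Ω]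

/-- The elements of L are fixed by the stabilizer of ζ. -/
theorem fix_of_stab {ζ : Ωˣ} (hζ : IsPrimitiveRoot ζ 7) (hL : IsCyclotomicExtension {7} F L)
    (g : Ω ≃ₐ[F] Ω) (hg : g • ζ = ζ) (x : L) : g (algebraMap L Ω x) = algebraMap L Ω x := by
  have hζ' : IsPrimitiveRoot (ζ : Ω) 7 := IsPrimitiveRoot.coe_units_iff.2 hζ
  have hg' : g (ζ : Ω) = ζ := congrArg Units.val hg
  refine Algebra.adjoin_induction (R := F) (p := fun x _ => g (algebraMap L Ω x) = algebraMap L Ω x)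
    ?_ ?_ ?_ ?_ (hL.adjoin_roots x)
  · rintro b ⟨n, hn, -, hb⟩
    rw [Set.mem_singleton_iff] at hn
    subst hn
    have h1 : (algebraMap L Ω b) ^ 7 = 1 := by rw [← map_pow, hb, map_one]
    obtain ⟨i, -, hi⟩ := hζ'.eq_pow_of_pow_eq_one h1
    rw [← hi, map_pow, hg']
  · intro r
    rw [← IsScalarTower.algebraMap_apply F L Ω]
    exact g.commutes r
  · intro x y _ _ hx hy
    rw [map_add, map_add, hx, hy]
  · intro x y _ _ hx hy
    rw [map_mul, map_mul, hx, hy]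

/-- The stabilizer of ζ maps to the Galois group over L. -/
def toL {ζ : Ωˣ} (hζ : IsPrimitiveRoot ζ 7) (hL : IsCyclotomicExtension {7} F L) :
    HZ F ζ →* (Ω ≃ₐ[L] Ω) where
  toFun g := { (g : Ω ≃ₐ[F] Ω) with
    commutes' := fun x => fix_of_stab hζ hL (g : Ω ≃ₐ[F] Ω) g.2 x }
  map_one' := rfl
  map_mul' _ _ := rfl

theorem toL_apply {ζ : Ωˣ} (hζ : IsPrimitiveRoot ζ 7) (hL : IsCyclotomicExtension {7} F L) (g : HZ F ζ)
    (x : Ω) : toL hζ hL g x = (g : Ω ≃ₐ[F] Ω) x := rfl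

theorem toL_smul {ζ : Ωˣ} (hζ : IsPrimitiveRoot ζ 7) (hL : IsCyclotomicExtension {7} F L) (g : HZ F ζ)
    (x : Ωˣ) : toL hζ hL g • x = g • x := rfl

theorem toL_res {ζ : Ωˣ} (hζ : IsPrimitiveRoot ζ 7) (hL : IsCyclotomicExtension {7} F L) (g : HZ F ζ) :
    (toL hζ hL g).restrictScalars F = (g : Ω ≃ₐ[F] Ω) := rfl

theorem toL_cont [IsGalois F Ω] (hD : Disc (Ω ≃ₐ[F] Ω) Ωˣ) {ζ : Ωˣ} (hζ : IsPrimitiveRoot ζ 7)
    (hL : IsCyclotomicExtension {7} F L) : Continuous (toL hζ hL) := by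
  apply continuous_of_continuousAt_one
  intro U hU
  rw [map_one, krullTopology_mem_nhds_one_iff] at hU
  obtain ⟨E, hE, hEU⟩ := hU
  have hfin : FiniteDimensional L E := hE
  let b := Module.finBasis L E
  have h1 : ∀ i, ∀ᶠ g : HZ F ζ in nhds 1, (g : Ω ≃ₐ[F] Ω) (b i : Ω) = (b i : Ω) := by
    intro i
    have hb0 : (b i : Ω) ≠ 0 := by
      intro h
      exact b.ne_zero i (Subtype.ext h)
    have h2 : IsOpen {g : HZ F ζ | (g : Ω ≃ₐ[F] Ω) • (Units.mk0 (b i : Ω) hb0) = Units.mk0 (b i : Ω) hb0} :=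
      (hD (Units.mk0 (b i : Ω) hb0)).preimage continuous_subtype_val
    have h3 : (1 : HZ F ζ) ∈
        {g : HZ F ζ | (g : Ω ≃ₐ[F] Ω) • (Units.mk0 (b i : Ω) hb0) = Units.mk0 (b i : Ω) hb0} := by
      change ((1 : HZ F ζ) : Ω ≃ₐ[F] Ω) • (Units.mk0 (b i : Ω) hb0) = Units.mk0 (b i : Ω) hb0
      rw [OneMemClass.coe_one, one_smul]
    filter_upwards [h2.mem_nhds h3] with g hg
    exact congrArg Units.val hg
  have h2 : ∀ᶠ g : HZ F ζ in nhds 1, ∀ i, (g : Ω ≃ₐ[F] Ω) (b i : Ω) = (b i : Ω) :=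
    Filter.eventually_all.mpr h1
  rw [Filter.mem_map]
  filter_upwards [h2] with g hg
  rw [Set.mem_preimage]
  apply hEU
  rw [SetLike.mem_coe, IntermediateField.mem_fixingSubgroup_iff]
  intro x hx
  have h3 : x = ∑ i, b.repr ⟨x, hx⟩ i • (b i : Ω) := by
    have := congrArg (fun y : E => (y : Ω)) (b.sum_repr ⟨x, hx⟩)
    simp only [AddSubmonoidClass.coe_finsetSum, IntermediateField.coe_smul] at this
    exact this.symm
  rw [h3, map_sum]
  refine Finset.sum_congr rfl fun i _ => ?_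
  rw [map_smul]
  congr 1
  exact hg i

end Trans

/-- Module LTRANS. -/
theorem ltrans (hks : KumSurjStatement.{u}) (hK : KumStatement.{u}) (hZ : GcupZStatement.{u})
    (hdisc : DiscStatement.{u}) (hdl : DlogStatement.{u}) : LTransStatement.{u} := by
  intro F L Ω _ _ _ _ _ _ _ _ _ ζ hζ hL f hf k a χ ha hχ hχc hB
  have hD := hdisc F Ω
  have hA := H38.disc_HZ F hD ζ
  obtain ⟨k1, k2, k3, k4, k5, k6⟩ := hK F Ω ζ hζ
  obtain ⟨l1, l2, l3⟩ := hdl Ω 7 ζ hζ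
  have hcont := toL_cont hD hζ hL
  -- invariance of the a i
  have haL : ∀ i, InL F ζ (a i) := fun i g hg => ha i (toL hζ hL ⟨g, hg⟩)
  -- characters
  set κ : Fin k → HZ F ζ → ZMod 7 := fun i g => χ i (toL hζ hL g) with hκdef
  have hκ : ∀ i g h, κ i (g * h) = κ i g + κ i h := by
    intro i g h
    rw [hκdef]
    dsimp only
    rw [map_mul, hχ]
  have hκc : ∀ i, IsLocallyConstant (κ i) := fun i => (hχc i).comp_continuous hcont
  have hex : ∀ i, ∃ b : Ωˣ, InL F ζ b ∧ kum F ζ b = κ i := by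
    intro i
    obtain ⟨θ, hθ⟩ := hks F Ω ζ hζ ⊤ isOpen_univ (fun g => κ i (g : HZ F ζ))
      (fun g h => hκ i _ _) ((hκc i).comp_continuous continuous_subtype_val)
    have hθ' : ∀ g : HZ F ζ, g • θ = ζ ^ (κ i g).val * θ := fun g => hθ ⟨g, Subgroup.mem_top _⟩
    have hb : InL F ζ (θ ^ 7) := by
      intro g hg
      have h1 := hθ' ⟨g, hg⟩
      have h2 : g • θ = ζ ^ (κ i ⟨g, hg⟩).val * θ := h1
      rw [smul_pow', h2, mul_pow, ← pow_mul, mul_comm _ 7, pow_mul, hζ.pow_eq_one, one_pow, one_mul]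
    refine ⟨θ ^ 7, hb, ?_⟩
    funext g
    have h1 := k2 (θ ^ 7) θ hb rfl g
    rw [hθ' g] at h1
    have h2 := mul_right_cancel h1
    rw [← l3 (κ i g), h2, l3]
  choose b hbL hbk using hex
  have hcupZ : ∀ i, cup 7 (a i) (κ i) ∈ Z2 (HZ F ζ) Ωˣ := fun i =>
    H38.cup_mem_Z2 hZ hA 7 (a i) (fun g => H38.inL_smul F (haL i) g) _ (hκ i) (hκc i)
  have hprodZ : (∏ i, cup 7 (a i) (κ i)) ∈ Z2 (HZ F ζ) Ωˣ := Subgroup.prod_mem _ fun i _ => hcupZ i
  have hfZ : (fun g h : HZ F ζ => f g h) ∈ Z2 (HZ F ζ) Ωˣ := by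
    obtain ⟨h1, h2⟩ := hf
    refine ⟨?_, fun g h k => h2 g h k⟩
    exact h1.comp_continuous ((continuous_subtype_val.comp continuous_fst).prodMk
      (continuous_subtype_val.comp continuous_snd))
  have hBZ : (fun g h : HZ F ζ => f g h) * (∏ i, cup 7 (a i) (κ i))⁻¹ ∈ B2 (HZ F ζ) Ωˣ := by
    obtain ⟨c, hc, e⟩ := hB
    refine ⟨fun g => c (toL hζ hL g), hc.comp_continuous hcont, fun g h => ?_⟩
    have e1 := e (toL hζ hL g) (toL hζ hL h)
    rw [← map_mul, toL_smul] at e1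
    rw [← e1]
    simp only [Pi.mul_apply, Pi.inv_apply, Finset.prod_apply, toL_res]
    rfl
  have hcls := H38.cls_eq hfZ hprodZ hBZ
  rw [hcls]
  have hprod : cls (HZ F ζ) Ωˣ (∏ i, cup 7 (a i) (κ i)) = ∏ i, cls (HZ F ζ) Ωˣ (cup 7 (a i) (κ i)) := by
    have : ∀ s : Finset (Fin k), cls (HZ F ζ) Ωˣ (∏ i ∈ s, cup 7 (a i) (κ i)) =
        ∏ i ∈ s, cls (HZ F ζ) Ωˣ (cup 7 (a i) (κ i)) := by
      classical
      intro s
      induction s using Finset.induction_on with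
      | empty => rw [Finset.prod_empty, Finset.prod_empty, H38.cls_one]
      | insert i s hi ih =>
        rw [Finset.prod_insert hi, Finset.prod_insert hi,
          H38.cls_mul (hcupZ i) (Subgroup.prod_mem _ fun j _ => hcupZ j), ih]
    exact this Finset.univ
  rw [hprod]
  refine Subgroup.prod_mem (G := H2 (HZ F ζ) Ωˣ) _ fun i _ => ?_
  apply Subgroup.subset_closure
  refine ⟨a i, b i, haL i, hbL i, ?_⟩
  unfold symb
  rw [hbk i]

end BR7.H62
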